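import Pool.Agent.K1H93.PZ.Mom
import Pool.Agent.K1H93.PY.Fin

/-!
# The exceptional characters for the intervals and for the subgroups
-/

set_option autoImplicit false

namespace Pool.Agent.K1H93.PZ

open Finset
open Pool.Agent.K1H93.PY (Pd)

variable {p : ℕ} [hp : Fact p.Prime]

/-- the sum over an interval -/
noncomputable def S (N : ℕ) (χ : DirichletCharacter ℂ p) (x : ZMod p) : ℂ := ∑ i ∈ range N, χ (x + (i : ZMod p))

theorem S_succ (N : ℕ) (χ : DirichletCharacter ℂ p) (x : ZMod p) :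
    S N χ (x + 1) = S N χ x + χ (x + (N : ZMod p)) - χ x := by
  have h1 : S N χ (x + 1) + χ x = ∑ i ∈ range (N + 1), χ (x + (i : ZMod p)) := by
    rw [sum_range_succ']
    unfold S
    congr 1
    · refine sum_congr rfl fun i _ => ?_
      congr 1
      push_cast
      ring
    · simp
  have h2 : S N χ x + χ (x + (N : ZMod p)) = ∑ i ∈ range (N + 1), χ (x + (i : ZMod p)) := by
    rw [sum_range_succ]
    rfl
  rw [← h2] at h1
  exact eq_sub_of_add_eq h1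

theorem S_shift (N : ℕ) (χ : DirichletCharacter ℂ p) (x : ZMod p) (h : ℕ) :
    ‖S N χ x‖ - 2 * h ≤ ‖S N χ (x + (h : ZMod p))‖ := by
  induction h with
  | zero => simp
  | succ h ih =>
    have e : x + ((h + 1 : ℕ) : ZMod p) = (x + (h : ZMod p)) + 1 := by push_cast; ring
    rw [e, S_succ]
    have h1 : ‖S N χ (x + (h : ZMod p))‖ ≤
        ‖S N χ (x + (h : ZMod p)) + χ (x + (h : ZMod p) + (N : ZMod p)) - χ (x + (h : ZMod p))‖ +
          (‖χ (x + (h : ZMod p) + (N : ZMod p))‖ + ‖χ (x + (h : ZMod p))‖) := by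
      calc ‖S N χ (x + (h : ZMod p))‖ =
          ‖(S N χ (x + (h : ZMod p)) + χ (x + (h : ZMod p) + (N : ZMod p)) - χ (x + (h : ZMod p))) +
            (χ (x + (h : ZMod p)) - χ (x + (h : ZMod p) + (N : ZMod p)))‖ := by congr 1; ring
        _ ≤ _ := (norm_add_le _ _).trans (add_le_add le_rfl ((norm_sub_le _ _).trans (le_of_eq (add_comm _ _))))
    have h2 := DirichletCharacter.norm_le_one χ (x + (h : ZMod p) + (N : ZMod p))
    have h3 := DirichletCharacter.norm_le_one χ (x + (h : ZMod p))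
    push_cast
    linarith

/-- the interval -/
def In (p N : ℕ) : Finset (ZMod p) := (range N).image fun i : ℕ => (i : ZMod p)

theorem inj_cast {N : ℕ} (hN : N ≤ p) : Set.InjOn (fun i : ℕ => (i : ZMod p)) (range N : Set ℕ) := by
  intro a ha b hb hab
  have ha' := mem_range.1 (mem_coe.1 ha)
  have hb' := mem_range.1 (mem_coe.1 hb)
  simp only at hab
  rwa [ZMod.natCast_eq_natCast_iff', Nat.mod_eq_of_lt (by omega), Nat.mod_eq_of_lt (by omega)] at hab

theorem card_In {N : ℕ} (hN : N ≤ p) : (In p N).card = N := by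
  unfold In
  rw [card_image_of_injOn (inj_cast hN), card_range]

theorem T_In {N : ℕ} (hN : N ≤ p) (χ : DirichletCharacter ℂ p) (x : ZMod p) : T (In p N) χ x = S N χ x := by
  unfold T In S
  rw [sum_image (inj_cast hN)]

theorem exc_In {N k : ℕ} (hN1 : 1 ≤ N) (hN : N ≤ p) (hk : p ≤ N ^ k) {K : ℝ} (hK : 1 ≤ K)
    (E : Finset (DirichletCharacter ℂ p)) (hE : ∀ χ ∈ E, ∃ x, (N : ℝ) / K < ‖S N χ x‖) :
    (E.card : ℝ) ≤ ((k : ℝ) ^ k + k) * (4 * K * (2 * K) ^ (2 * k)) * p / N := by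
  classical
  have hN0 : (0 : ℝ) < N := by exact_mod_cast hN1
  have hK0 : 0 < K := by linarith
  set m : ℕ := ⌊(N : ℝ) / (4 * K)⌋₊ with hm
  have hm1 : (m : ℝ) ≤ (N : ℝ) / (4 * K) := Nat.floor_le (by positivity)
  have hm2 : (N : ℝ) / (4 * K) < m + 1 := Nat.lt_floor_add_one _
  have hm3 : m + 1 ≤ p := by
    have h2 : (2 : ℝ) ≤ p := by exact_mod_cast hp.out.two_le
    have h3 : (N : ℝ) ≤ p := by exact_mod_cast hN
    have h4 : (N : ℝ) / (4 * K) ≤ N / 4 := by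
      apply div_le_div_of_nonneg_left hN0.le (by norm_num)
      linarith
    have h5 : ((m + 1 : ℕ) : ℝ) ≤ p := by
      push_cast
      linarith
    exact_mod_cast h5
  have h1 : ∀ χ ∈ E, (N : ℝ) / (4 * K) * ((N : ℝ) / (2 * K)) ^ (2 * k) ≤ ∑ x, ‖T (In p N) χ x‖ ^ (2 * k) := by
    intro χ hχ
    obtain ⟨x, hx⟩ := hE χ hχ
    have h2 : ∀ h ∈ range (m + 1), ((N : ℝ) / (2 * K)) ^ (2 * k) ≤ ‖T (In p N) χ (x + (h : ZMod p))‖ ^ (2 * k) := by
      intro h hh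
      rw [mem_range] at hh
      refine pow_le_pow_left₀ (by positivity) ?_ _
      rw [T_In hN]
      refine le_trans ?_ (S_shift N χ x h)
      have h3 : (h : ℝ) ≤ m := by exact_mod_cast (by omega : h ≤ m)
      have h4 : (N : ℝ) / K - 2 * ((N : ℝ) / (4 * K)) = (N : ℝ) / (2 * K) := by
        field_simp
        ring
      rw [← h4]
      linarith
    calc (N : ℝ) / (4 * K) * ((N : ℝ) / (2 * K)) ^ (2 * k)
        ≤ (m + 1 : ℝ) * ((N : ℝ) / (2 * K)) ^ (2 * k) := mul_le_mul_of_nonneg_right hm2.le (by positivity)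
      _ = ∑ h ∈ range (m + 1), ((N : ℝ) / (2 * K)) ^ (2 * k) := by
          rw [sum_const, card_range, nsmul_eq_mul]
          push_cast
          rfl
      _ ≤ ∑ h ∈ range (m + 1), ‖T (In p N) χ (x + (h : ZMod p))‖ ^ (2 * k) := sum_le_sum h2
      _ = ∑ y ∈ (range (m + 1)).image (fun h : ℕ => x + (h : ZMod p)), ‖T (In p N) χ y‖ ^ (2 * k) := by
          rw [sum_image]
          intro a ha b hb hab
          exact inj_cast hm3 ha hb (add_left_cancel hab)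
      _ ≤ _ := sum_le_sum_of_subset_of_nonneg (subset_univ _) fun y _ _ => by positivity
  have h2 := moment (In p N) k
  rw [card_In hN] at h2
  have h3 : (E.card : ℝ) * ((N : ℝ) / (4 * K) * ((N : ℝ) / (2 * K)) ^ (2 * k)) ≤
      p * (p * ((k : ℝ) ^ k * (N : ℝ) ^ k) + k * (N : ℝ) ^ (2 * k)) := by
    refine le_trans ?_ h2
    calc (E.card : ℝ) * ((N : ℝ) / (4 * K) * ((N : ℝ) / (2 * K)) ^ (2 * k))
        = ∑ χ ∈ E, ((N : ℝ) / (4 * K) * ((N : ℝ) / (2 * K)) ^ (2 * k)) := by rw [sum_const, nsmul_eq_mul]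
      _ ≤ ∑ χ ∈ E, ∑ x, ‖T (In p N) χ x‖ ^ (2 * k) := sum_le_sum h1
      _ ≤ _ := sum_le_sum_of_subset_of_nonneg (subset_univ _) fun χ _ _ => sum_nonneg fun x _ => by positivity
  have hk' : (p : ℝ) ≤ (N : ℝ) ^ k := by exact_mod_cast hk
  have h4 : (p : ℝ) * (p * ((k : ℝ) ^ k * (N : ℝ) ^ k) + k * (N : ℝ) ^ (2 * k)) ≤
      p * (((k : ℝ) ^ k + k) * (N : ℝ) ^ (2 * k)) := by
    refine mul_le_mul_of_nonneg_left ?_ (Nat.cast_nonneg _)
    have h5 : (p : ℝ) * ((k : ℝ) ^ k * (N : ℝ) ^ k) ≤ (N : ℝ) ^ k * ((k : ℝ) ^ k * (N : ℝ) ^ k) :=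
      mul_le_mul_of_nonneg_right hk' (by positivity)
    have h6 : (N : ℝ) ^ (2 * k) = (N : ℝ) ^ k * (N : ℝ) ^ k := by rw [two_mul, pow_add]
    rw [h6]
    rw [h6] at *
    nlinarith [h5]
  have h5 := h3.trans h4
  have h6 : (E.card : ℝ) * ((N : ℝ) / (4 * K) * ((N : ℝ) / (2 * K)) ^ (2 * k)) =
      ((E.card : ℝ) * N / (4 * K * (2 * K) ^ (2 * k))) * (N : ℝ) ^ (2 * k) := by
    rw [div_pow]
    field_simp
  have h7 : (p : ℝ) * (((k : ℝ) ^ k + k) * (N : ℝ) ^ (2 * k)) = (p * ((k : ℝ) ^ k + k)) * (N : ℝ) ^ (2 * k) := by ring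
  rw [h6, h7] at h5
  have h8 := le_of_mul_le_mul_right h5 (by positivity)
  rw [div_le_iff₀ (by positivity)] at h8
  rw [le_div_iff₀ hN0]
  refine h8.trans (le_of_eq ?_)
  ring

/-- the image of the elements with `d`-th power one -/
def Pi (p d : ℕ) [Fact p.Prime] : Finset (ZMod p) := (Pd p d).image fun u : (ZMod p)ˣ => (u : ZMod p)

theorem card_Pi (d : ℕ) : (Pi p d).card = (Pd p d).card := by
  unfold Pi
  exact card_image_of_injective _ (fun _ _ h => Units.ext h)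

theorem T_Pi (d : ℕ) (χ : DirichletCharacter ℂ p) (x : ZMod p) :
    T (Pi p d) χ x = ∑ u ∈ Pd p d, χ (x + ((u : (ZMod p)ˣ) : ZMod p)) := by
  unfold T Pi
  rw [sum_image (fun _ _ _ _ h => Units.ext h)]

theorem T_Pi_mul (d : ℕ) (χ : DirichletCharacter ℂ p) (x : ZMod p) {h : (ZMod p)ˣ} (hh : h ∈ Pd p d) :
    T (Pi p d) χ (x * (h : ZMod p)) = χ (h : ZMod p) * T (Pi p d) χ x := by
  classical
  rw [T_Pi, T_Pi, mul_sum]
  symm
  apply sum_nbij' (fun u => u * h) (fun u => u / h)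
  · intro u hu
    unfold Pd at hu hh ⊢
    rw [mem_filter] at hu hh ⊢
    exact ⟨mem_univ _, by rw [mul_pow, hu.2, hh.2, one_mul]⟩
  · intro u hu
    unfold Pd at hu hh ⊢
    rw [mem_filter] at hu hh ⊢
    exact ⟨mem_univ _, by rw [div_pow, hu.2, hh.2, div_one]⟩
  · intro u _
    simp
  · intro u _
    simp
  · intro u _
    rw [← map_mul]
    congr 1
    push_cast
    ring

theorem exc_Pi {d k : ℕ} (hk : p ≤ (Pd p d).card ^ k) {K : ℝ} (hK : 1 ≤ K)
    (E : Finset (DirichletCharacter ℂ p)) (hE : ∀ χ ∈ E, ∃ x : ZMod p, x ≠ 0 ∧ ((Pd p d).card : ℝ) / K < ‖T (Pi p d) χ x‖) :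
    (E.card : ℝ) ≤ ((k : ℝ) ^ k + k) * K ^ (2 * k) * p / (Pd p d).card := by
  classical
  have hne : (Pd p d).Nonempty := ⟨1, by unfold Pd; rw [mem_filter]; exact ⟨mem_univ _, one_pow d⟩⟩
  have hN0 : (0 : ℝ) < (Pd p d).card := by exact_mod_cast hne.card_pos
  have hK0 : 0 < K := by linarith
  set N : ℝ := ((Pd p d).card : ℝ) with hN
  have h1 : ∀ χ ∈ E, N * (N / K) ^ (2 * k) ≤ ∑ x, ‖T (Pi p d) χ x‖ ^ (2 * k) := by
    intro χ hχ
    obtain ⟨x, hx0, hx⟩ := hE χ hχ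
    have h2 : ∀ h ∈ Pd p d, (N / K) ^ (2 * k) ≤ ‖T (Pi p d) χ (x * ((h : (ZMod p)ˣ) : ZMod p))‖ ^ (2 * k) := by
      intro h hh
      refine pow_le_pow_left₀ (by positivity) ?_ _
      rw [T_Pi_mul d χ x hh, norm_mul, DirichletCharacter.unit_norm_eq_one, one_mul]
      exact hx.le
    calc N * (N / K) ^ (2 * k) = ∑ h ∈ Pd p d, (N / K) ^ (2 * k) := by rw [sum_const, nsmul_eq_mul]
      _ ≤ ∑ h ∈ Pd p d, ‖T (Pi p d) χ (x * ((h : (ZMod p)ˣ) : ZMod p))‖ ^ (2 * k) := sum_le_sum h2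
      _ = ∑ y ∈ (Pd p d).image (fun h : (ZMod p)ˣ => x * (h : ZMod p)), ‖T (Pi p d) χ y‖ ^ (2 * k) := by
          rw [sum_image]
          intro a _ b _ hab
          exact Units.ext (mul_left_cancel₀ hx0 hab)
      _ ≤ _ := sum_le_sum_of_subset_of_nonneg (subset_univ _) fun y _ _ => by positivity
  have h2 := moment (Pi p d) k
  rw [card_Pi] at h2
  have h3 : (E.card : ℝ) * (N * (N / K) ^ (2 * k)) ≤
      p * (p * ((k : ℝ) ^ k * N ^ k) + k * N ^ (2 * k)) := by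
    refine le_trans ?_ h2
    calc (E.card : ℝ) * (N * (N / K) ^ (2 * k))
        = ∑ χ ∈ E, (N * (N / K) ^ (2 * k)) := by rw [sum_const, nsmul_eq_mul]
      _ ≤ ∑ χ ∈ E, ∑ x, ‖T (Pi p d) χ x‖ ^ (2 * k) := sum_le_sum h1
      _ ≤ _ := sum_le_sum_of_subset_of_nonneg (subset_univ _) fun χ _ _ => sum_nonneg fun x _ => by positivity
  have hk' : (p : ℝ) ≤ N ^ k := by rw [hN]; exact_mod_cast hk
  have h4 : (p : ℝ) * (p * ((k : ℝ) ^ k * N ^ k) + k * N ^ (2 * k)) ≤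
      p * (((k : ℝ) ^ k + k) * N ^ (2 * k)) := by
    refine mul_le_mul_of_nonneg_left ?_ (Nat.cast_nonneg _)
    have h5 : (p : ℝ) * ((k : ℝ) ^ k * N ^ k) ≤ N ^ k * ((k : ℝ) ^ k * N ^ k) :=
      mul_le_mul_of_nonneg_right hk' (by positivity)
    have h6 : N ^ (2 * k) = N ^ k * N ^ k := by rw [two_mul, pow_add]
    rw [h6]
    nlinarith [h5]
  have h5 := h3.trans h4
  have h6 : (E.card : ℝ) * (N * (N / K) ^ (2 * k)) =
      ((E.card : ℝ) * N / K ^ (2 * k)) * N ^ (2 * k) := by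
    rw [div_pow]
    field_simp
  have h7 : (p : ℝ) * (((k : ℝ) ^ k + k) * N ^ (2 * k)) = (p * ((k : ℝ) ^ k + k)) * N ^ (2 * k) := by ring
  rw [h6, h7] at h5
  have h8 := le_of_mul_le_mul_right h5 (by positivity)
  rw [div_le_iff₀ (by positivity)] at h8
  rw [le_div_iff₀ hN0]
  refine h8.trans (le_of_eq ?_)
  ring

end Pool.Agent.K1H93.PZ
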