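import Pool.Agent.K1H93.PZ.Exc

/-!
# One arbitrary set, one set tiled by progressions and cosets
-/

set_option autoImplicit false

namespace Pool.Agent.K1H93.PZ

open Finset
open Pool.Agent.K1H93.PY (Pd Pd_eq)

/-- an arithmetic progression with at least `p ^ ε` terms -/
def Prog (p : ℕ) (ε : ℝ) (Q : Finset (ZMod p)) : Prop :=
  ∃ (y z : ZMod p) (N : ℕ), z ≠ 0 ∧ (p : ℝ) ^ ε ≤ N ∧ N ≤ p ∧
    (Q : Set (ZMod p)) = {b | ∃ i : ℕ, i < N ∧ b = y + i * z}

/-- an affine image of a subgroup with at least `p ^ ε` elements -/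
def Coset (p : ℕ) (ε : ℝ) (Q : Finset (ZMod p)) : Prop :=
  ∃ (y z : ZMod p) (H : Subgroup (ZMod p)ˣ), z ≠ 0 ∧ (p : ℝ) ^ ε ≤ Nat.card H ∧
    (Q : Set (ZMod p)) = {b | ∃ h ∈ H, b = y + z * h}

variable {p : ℕ} [hp : Fact p.Prime]

theorem S_le (N : ℕ) (χ : DirichletCharacter ℂ p) (x : ZMod p) : ‖S N χ x‖ ≤ N := by
  unfold S
  refine (norm_sum_le _ _).trans ?_
  refine (sum_le_sum fun i _ => DirichletCharacter.norm_le_one χ _).trans ?_
  rw [sum_const, card_range, nsmul_eq_mul, mul_one]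

theorem S_add (M N : ℕ) (χ : DirichletCharacter ℂ p) (x : ZMod p) :
    S (M + N) χ x = S M χ x + S N χ (x + (M : ZMod p)) := by
  unfold S
  rw [sum_range_add]
  congr 1
  refine sum_congr rfl fun i _ => ?_
  congr 1
  push_cast
  ring

theorem S_long {N0 : ℕ} (hN0 : 1 ≤ N0) {c : ℝ} (hc : 0 ≤ c) {χ : DirichletCharacter ℂ p}
    (h : ∀ x, ‖S N0 χ x‖ ≤ c * N0) : ∀ (N : ℕ) (x : ZMod p), ‖S N χ x‖ ≤ c * N + N0 := by
  intro N
  induction N using Nat.strong_induction_on with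
  | _ N ih =>
    intro x
    rcases lt_or_ge N N0 with hN | hN
    · have h1 := S_le N χ x
      have h2 : (N : ℝ) ≤ N0 := by exact_mod_cast hN.le
      have h3 : 0 ≤ c * (N : ℝ) := by positivity
      linarith
    · obtain ⟨M, rfl⟩ := Nat.exists_eq_add_of_le hN
      rw [S_add]
      have h1 := ih M (by omega) (x + (N0 : ZMod p))
      have h2 := h x
      have h3 := norm_add_le (S N0 χ x) (S M χ (x + (N0 : ZMod p)))
      push_cast
      nlinarith

theorem prog_sum {N0 : ℕ} (hN0 : 1 ≤ N0) {c : ℝ} (hc : 0 ≤ c) {χ : DirichletCharacter ℂ p}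
    (h : ∀ x, ‖S N0 χ x‖ ≤ c * N0) {ε : ℝ} {Q : Finset (ZMod p)} (hQ : Prog p ε Q)
    (hNε : (N0 : ℝ) ≤ 2 * c * (p : ℝ) ^ ε) (a : ZMod p) : ‖∑ b ∈ Q, χ (a + b)‖ ≤ 3 * c * Q.card := by
  classical
  obtain ⟨y, z, N, hz, hN, hNp, hQ⟩ := hQ
  have hinj : Set.InjOn (fun i : ℕ => y + (i : ZMod p) * z) (range N : Set ℕ) := by
    intro i hi j hj hij
    exact inj_cast hNp hi hj (mul_right_cancel₀ hz (add_left_cancel hij))
  have hQ' : Q = (range N).image fun i : ℕ => y + (i : ZMod p) * z := by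
    apply Finset.coe_injective
    rw [hQ]
    ext b
    simp only [Set.mem_ofPred_eq, coe_image, Set.mem_image, coe_range, Set.mem_Iio]
    constructor
    · rintro ⟨i, hi, rfl⟩
      exact ⟨i, hi, rfl⟩
    · rintro ⟨i, hi, rfl⟩
      exact ⟨i, hi, rfl⟩
  have hcard : Q.card = N := by rw [hQ', card_image_of_injOn hinj, card_range]
  have e : ∑ b ∈ Q, χ (a + b) = χ z * S N χ ((a + y) / z) := by
    rw [hQ', sum_image hinj]
    unfold S
    rw [mul_sum]
    refine sum_congr rfl fun i _ => ?_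
    rw [← map_mul]
    congr 1
    field_simp
    ring
  rw [e, norm_mul, hcard]
  have h1 := S_long hN0 hc h N ((a + y) / z)
  have h2 : ‖χ z‖ * ‖S N χ ((a + y) / z)‖ ≤ ‖S N χ ((a + y) / z)‖ :=
    mul_le_of_le_one_left (norm_nonneg _) (DirichletCharacter.norm_le_one _ _)
  have h3 : 2 * c * (p : ℝ) ^ ε ≤ 2 * c * N := mul_le_mul_of_nonneg_left hN (by positivity)
  linarith

theorem coset_sum {c : ℝ} {χ : DirichletCharacter ℂ p} {ε : ℝ} {Q : Finset (ZMod p)} (hQ : Coset p ε Q)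
    (h : ∀ d ∈ (p - 1).divisors, (p : ℝ) ^ ε ≤ (Pd p d).card → ∀ x : ZMod p, x ≠ 0 →
      ‖T (Pi p d) χ x‖ ≤ c * (Pd p d).card) :
    ∃ y : ZMod p, ∀ a : ZMod p, a ≠ -y → ‖∑ b ∈ Q, χ (a + b)‖ ≤ c * Q.card := by
  classical
  obtain ⟨y, z, H, hz, hH, hQ⟩ := hQ
  refine ⟨y, fun a ha => ?_⟩
  set d : ℕ := Nat.card H with hd
  have hPH : ((Pd p d : Finset (ZMod p)ˣ) : Set (ZMod p)ˣ) = H := Pd_eq H
  have hcard : (Pd p d).card = d := by
    have h1 : ((Pd p d : Finset (ZMod p)ˣ) : Set (ZMod p)ˣ).ncard = (H : Set (ZMod p)ˣ).ncard := by rw [hPH]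
    rw [Set.ncard_coe_finset] at h1
    rw [h1]
    rfl
  have hdv : d ∈ (p - 1).divisors := by
    rw [Nat.mem_divisors]
    refine ⟨?_, ?_⟩
    · have h1 := Subgroup.card_subgroup_dvd_card H
      rw [Nat.card_eq_fintype_card (α := (ZMod p)ˣ), ZMod.card_units] at h1
      exact h1
    · have := hp.out.two_le
      omega
  have hinj : Set.InjOn (fun u : (ZMod p)ˣ => y + z * (u : ZMod p)) (Pd p d : Set (ZMod p)ˣ) := by
    intro i _ j _ hij
    exact Units.ext (mul_left_cancel₀ hz (add_left_cancel hij))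
  have hQ' : Q = (Pd p d).image fun u : (ZMod p)ˣ => y + z * (u : ZMod p) := by
    apply Finset.coe_injective
    rw [hQ, coe_image, hPH]
    ext b
    simp only [Set.mem_ofPred_eq, Set.mem_image, SetLike.mem_coe]
    constructor
    · rintro ⟨i, hi, rfl⟩
      exact ⟨i, hi, rfl⟩
    · rintro ⟨i, hi, rfl⟩
      exact ⟨i, hi, rfl⟩
  have hQc : Q.card = (Pd p d).card := by rw [hQ', card_image_of_injOn hinj]
  have e : ∑ b ∈ Q, χ (a + b) = χ z * T (Pi p d) χ ((a + y) / z) := by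
    rw [hQ', sum_image hinj, T_Pi, mul_sum]
    refine sum_congr rfl fun i _ => ?_
    rw [← map_mul]
    congr 1
    field_simp
    ring
  rw [e, norm_mul, hQc]
  have hx : (a + y) / z ≠ 0 := by
    apply div_ne_zero _ hz
    intro h0
    exact ha (eq_neg_of_add_eq_zero_left h0)
  have h1 := h d hdv (by rw [hcard]; exact hH) _ hx
  exact (mul_le_of_le_one_left (norm_nonneg _) (DirichletCharacter.norm_le_one _ _)).trans h1

theorem triv_sum (χ : DirichletCharacter ℂ p) (Q : Finset (ZMod p)) (a : ZMod p) : ‖∑ b ∈ Q, χ (a + b)‖ ≤ Q.card := by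
  refine (norm_sum_le _ _).trans ?_
  refine (sum_le_sum fun i _ => DirichletCharacter.norm_le_one χ _).trans ?_
  rw [sum_const, nsmul_eq_mul, mul_one]

/-- all pairs -/
theorem total {c : ℝ} (hc : 0 ≤ c) (χ : DirichletCharacter ℂ p) (A : Finset (ZMod p)) (F : Finset (Finset (ZMod p)))
    (hF : (F : Set (Finset (ZMod p))).PairwiseDisjoint id)
    (h : ∀ Q ∈ F, (∀ a, ‖∑ b ∈ Q, χ (a + b)‖ ≤ 3 * c * Q.card) ∨
      (1 ≤ c * A.card ∧ ∃ y : ZMod p, ∀ a : ZMod p, a ≠ -y → ‖∑ b ∈ Q, χ (a + b)‖ ≤ c * Q.card)) :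
    ‖∑ a ∈ A, ∑ b ∈ F.biUnion id, χ (a + b)‖ ≤ 3 * c * (A.card * (F.biUnion id).card) := by
  classical
  have e : ∑ a ∈ A, ∑ b ∈ F.biUnion id, χ (a + b) = ∑ Q ∈ F, ∑ a ∈ A, ∑ b ∈ Q, χ (a + b) := by
    rw [sum_comm (s := F)]
    refine sum_congr rfl fun a _ => ?_
    rw [sum_biUnion hF]
    rfl
  have ec : ((F.biUnion id).card : ℝ) = ∑ Q ∈ F, (Q.card : ℝ) := by
    rw [card_biUnion (fun x hx y hy hxy => hF hx hy hxy)]
    push_cast
    rfl
  rw [e, ec, mul_sum, mul_sum]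
  refine (norm_sum_le _ _).trans (sum_le_sum fun Q hQ => ?_)
  refine (norm_sum_le _ _).trans ?_
  rcases h Q hQ with h1 | ⟨h0, y, h1⟩
  · refine (sum_le_sum fun a _ => h1 a).trans (le_of_eq ?_)
    rw [sum_const, nsmul_eq_mul]
    ring
  · have h2 : ∀ a ∈ A, ‖∑ b ∈ Q, χ (a + b)‖ ≤ c * Q.card + (if a = -y then (Q.card : ℝ) else 0) := by
      intro a _
      by_cases ha : a = -y
      · rw [if_pos ha]
        have h3 := triv_sum χ Q a
        have h4 : 0 ≤ c * (Q.card : ℝ) := by positivity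
        linarith
      · rw [if_neg ha, add_zero]
        exact h1 a ha
    refine (sum_le_sum h2).trans ?_
    rw [sum_add_distrib, sum_const, nsmul_eq_mul]
    have h5 : ∑ a ∈ A, (if a = -y then (Q.card : ℝ) else 0) ≤ Q.card := by
      rw [sum_ite_eq' A (-y) fun _ => (Q.card : ℝ)]
      split_ifs
      · exact le_rfl
      · exact Nat.cast_nonneg _
    have h6 : (Q.card : ℝ) ≤ c * A.card * Q.card := by
      have := mul_le_mul_of_nonneg_right h0 (Nat.cast_nonneg (α := ℝ) Q.card)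
      linarith
    have h7 : 0 ≤ c * (A.card : ℝ) * Q.card := by positivity
    nlinarith

end Pool.Agent.K1H93.PZ
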