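import Pool.Agent.K1H93.PZ.Fin

/-!
# The theorem: one arbitrary set, one tiled set
-/

set_option autoImplicit false

namespace Pool.Agent.K1H93.PZ

open Finset
open Pool.Agent.K1H93.PY (Pd Pd_eq)

theorem main (ε η : ℝ) (hε : 0 < ε) (hε1 : ε ≤ 1) (hη : 0 < η) : ∃ τ : ℝ, 0 < τ ∧ ∃ p₀ : ℕ, ∀ p : ℕ, p.Prime → p₀ ≤ p →
    ∃ E : Finset (DirichletCharacter ℂ p), (E.card : ℝ) ≤ (p : ℝ) ^ (1 - ε + η) ∧
      ∀ χ ∉ E, ∀ (A : Finset (ZMod p)) (F : Finset (Finset (ZMod p))),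
        (F : Set (Finset (ZMod p))).PairwiseDisjoint id →
        ((∀ Q ∈ F, Prog p ε Q) ∨
          ((∀ Q ∈ F, Prog p ε Q ∨ Coset p ε Q) ∧ (p : ℝ) ^ (2 * τ) ≤ A.card)) →
          ‖∑ a ∈ A, ∑ b ∈ F.biUnion id, χ (a + b)‖ ≤ (p : ℝ) ^ (-τ) * (A.card * (F.biUnion id).card) := by
  classical
  set k : ℕ := ⌈2 / ε⌉₊ with hk
  have hk1 : 1 ≤ ε / 2 * k := by
    have h := Nat.le_ceil (2 / ε)
    rw [← hk] at h
    calc (1 : ℝ) = ε / 2 * (2 / ε) := by field_simp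
      _ ≤ ε / 2 * k := mul_le_mul_of_nonneg_left h (by positivity)
  set τ : ℝ := min (ε / 4) (η / (16 * (k + 1))) with hτ
  have hτ0 : 0 < τ := by
    rw [hτ]
    apply lt_min <;> positivity
  have hτε : τ ≤ ε / 4 := min_le_left _ _
  have hτη : τ * (16 * (k + 1)) ≤ η := by
    have h := min_le_right (ε / 4) (η / (16 * ((k : ℝ) + 1)))
    rw [← hτ] at h
    rwa [le_div_iff₀ (by positivity)] at h
  obtain ⟨C0, hC0, hdiv⟩ := Pool.Agent.H510R2.divisor_bound (η / 4) (by positivity)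
  set Ck : ℝ := ((k : ℝ) ^ k + k) with hCk
  have hCk0 : 0 < Ck := by
    have hk0 : 0 < k := by
      rw [hk]; exact Nat.ceil_pos.2 (by positivity)
    have : (0 : ℝ) < k := by exact_mod_cast hk0
    positivity
  set C : ℝ := Ck * (4 * 4 ^ k) + C0 * Ck with hC
  have hCpos : 0 < C := by positivity
  refine ⟨τ, hτ0, ⌈C ^ (2 / η)⌉₊ + ⌈(3 : ℝ) ^ (1 / τ)⌉₊ + 2, fun p hp hp0 => ?_⟩
  have : Fact p.Prime := ⟨hp⟩
  have hp1 : (1 : ℝ) ≤ p := by exact_mod_cast hp.one_lt.le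
  have hpp : (0 : ℝ) < p := by linarith
  have hpC : C ≤ (p : ℝ) ^ (η / 2) := by
    have h1 : C ^ (2 / η) ≤ p := by
      refine (Nat.le_ceil _).trans ?_
      exact_mod_cast (by omega : ⌈C ^ (2 / η)⌉₊ ≤ p)
    have h2 := Real.rpow_le_rpow (by positivity) h1 (by positivity : (0 : ℝ) ≤ η / 2)
    rw [← Real.rpow_mul hCpos.le] at h2
    have h3 : 2 / η * (η / 2) = 1 := by field_simp
    rwa [h3, Real.rpow_one] at h2
  have hp3 : (3 : ℝ) ≤ (p : ℝ) ^ τ := by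
    have h1 : (3 : ℝ) ^ (1 / τ) ≤ p := by
      refine (Nat.le_ceil _).trans ?_
      exact_mod_cast (by omega : ⌈(3 : ℝ) ^ (1 / τ)⌉₊ ≤ p)
    have h2 := Real.rpow_le_rpow (by positivity) h1 hτ0.le
    rw [← Real.rpow_mul (by norm_num)] at h2
    have h3 : 1 / τ * τ = 1 := by field_simp
    rwa [h3, Real.rpow_one] at h2
  set K : ℝ := (p : ℝ) ^ (2 * τ) with hK
  have hK1 : 1 ≤ K := Real.one_le_rpow hp1 (by positivity)
  have hK0 : 0 < K := by linarith
  set N0 : ℕ := ⌈(p : ℝ) ^ (ε - 2 * τ)⌉₊ with hN0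
  have hN0l : (p : ℝ) ^ (ε - 2 * τ) ≤ N0 := Nat.le_ceil _
  have hN0u : (N0 : ℝ) ≤ 2 * (p : ℝ) ^ (ε - 2 * τ) := by
    have h1 : (1 : ℝ) ≤ (p : ℝ) ^ (ε - 2 * τ) := Real.one_le_rpow hp1 (by linarith)
    have h2 := Nat.ceil_lt_add_one (a := (p : ℝ) ^ (ε - 2 * τ)) (by positivity)
    rw [← hN0] at h2
    linarith
  have hN01 : 1 ≤ N0 := Nat.ceil_pos.2 (by positivity)
  have hN0p : N0 ≤ p := by
    rw [hN0, Nat.ceil_le]
    calc (p : ℝ) ^ (ε - 2 * τ) ≤ (p : ℝ) ^ (1 : ℝ) := Real.rpow_le_rpow_of_exponent_le hp1 (by linarith)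
      _ = p := Real.rpow_one _
  have hkN : p ≤ N0 ^ k := by
    have h1 : (p : ℝ) ≤ (N0 : ℝ) ^ k := by
      calc (p : ℝ) = (p : ℝ) ^ (1 : ℝ) := (Real.rpow_one _).symm
        _ ≤ (p : ℝ) ^ ((ε - 2 * τ) * k) := by
            apply Real.rpow_le_rpow_of_exponent_le hp1
            refine hk1.trans (mul_le_mul_of_nonneg_right ?_ (Nat.cast_nonneg _))
            linarith
        _ = ((p : ℝ) ^ (ε - 2 * τ)) ^ k := by rw [Real.rpow_mul hpp.le, Real.rpow_natCast]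
        _ ≤ (N0 : ℝ) ^ k := pow_le_pow_left₀ (by positivity) hN0l k
    exact_mod_cast h1
  -- the exceptional sets
  set E0 : Finset (DirichletCharacter ℂ p) := univ.filter fun χ => ∃ x, (N0 : ℝ) / K < ‖S N0 χ x‖ with hE0
  set Ed : ℕ → Finset (DirichletCharacter ℂ p) := fun d => univ.filter fun χ =>
    ∃ x : ZMod p, x ≠ 0 ∧ ((Pd p d).card : ℝ) / K < ‖T (Pi p d) χ x‖ with hEd
  set Dv : Finset ℕ := (p - 1).divisors.filter fun d => (p : ℝ) ^ ε ≤ (Pd p d).card with hDv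
  have hE0c : (E0.card : ℝ) ≤ Ck * (4 * 4 ^ k) * (p : ℝ) ^ (1 - ε + η / 2) := by
    have h1 := exc_In hN01 hN0p hkN hK1 E0 fun χ hχ => (mem_filter.1 hχ).2
    refine h1.trans ?_
    have h2 : (4 * K * (2 * K) ^ (2 * k)) = (4 * 4 ^ k) * K ^ (2 * k + 1) := by
      rw [mul_pow, pow_succ, pow_mul (2 : ℝ)]
      norm_num
      ring
    have h3 : K ^ (2 * k + 1) = (p : ℝ) ^ (2 * τ * (2 * k + 1)) := by
      rw [hK, ← Real.rpow_natCast, ← Real.rpow_mul hpp.le]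
      push_cast
      rfl
    have hcp : (0 : ℝ) < (p : ℝ) ^ (ε - 2 * τ) := by positivity
    calc ((k : ℝ) ^ k + k) * (4 * K * (2 * K) ^ (2 * k)) * p / N0
        ≤ ((k : ℝ) ^ k + k) * (4 * K * (2 * K) ^ (2 * k)) * p / (p : ℝ) ^ (ε - 2 * τ) := by gcongr
      _ = Ck * (4 * 4 ^ k) * (p : ℝ) ^ (1 - ε + (2 * τ * (2 * k + 1) + 2 * τ)) := by
          rw [h2, h3]
          have h4 : (p : ℝ) ^ (1 - ε + (2 * τ * (2 * k + 1) + 2 * τ)) =
              (p : ℝ) ^ (2 * τ * (2 * k + 1)) * p / (p : ℝ) ^ (ε - 2 * τ) := by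
            rw [← Real.rpow_add_one hpp.ne', ← Real.rpow_sub hpp]
            congr 1
            ring
          rw [h4, hCk]
          ring
      _ ≤ Ck * (4 * 4 ^ k) * (p : ℝ) ^ (1 - ε + η / 2) := by
          refine mul_le_mul_of_nonneg_left ?_ (by positivity)
          apply Real.rpow_le_rpow_of_exponent_le hp1
          nlinarith
  have hEdc : ∀ d ∈ Dv, ((Ed d).card : ℝ) ≤ Ck * (p : ℝ) ^ (1 - ε + η / 4) := by
    intro d hd
    have hd2 := (mem_filter.1 hd).2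
    have hkd : p ≤ (Pd p d).card ^ k := by
      have h1 : (p : ℝ) ≤ ((Pd p d).card : ℝ) ^ k := by
        calc (p : ℝ) = (p : ℝ) ^ (1 : ℝ) := (Real.rpow_one _).symm
          _ ≤ (p : ℝ) ^ (ε * k) := by
              apply Real.rpow_le_rpow_of_exponent_le hp1
              refine hk1.trans (mul_le_mul_of_nonneg_right ?_ (Nat.cast_nonneg _))
              linarith
          _ = ((p : ℝ) ^ ε) ^ k := by rw [Real.rpow_mul hpp.le, Real.rpow_natCast]
          _ ≤ _ := pow_le_pow_left₀ (by positivity) hd2 k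
      exact_mod_cast h1
    have h1 := exc_Pi hkd hK1 (Ed d) fun χ hχ => (mem_filter.1 hχ).2
    refine h1.trans ?_
    have h3 : K ^ (2 * k) = (p : ℝ) ^ (2 * τ * (2 * k)) := by
      rw [hK, ← Real.rpow_natCast, ← Real.rpow_mul hpp.le]
      push_cast
      rfl
    have hcp : (0 : ℝ) < (p : ℝ) ^ ε := by positivity
    calc ((k : ℝ) ^ k + k) * K ^ (2 * k) * p / (Pd p d).card
        ≤ ((k : ℝ) ^ k + k) * K ^ (2 * k) * p / (p : ℝ) ^ ε := by gcongr
      _ = Ck * (p : ℝ) ^ (1 - ε + 2 * τ * (2 * k)) := by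
          rw [h3]
          have h4 : (p : ℝ) ^ (1 - ε + 2 * τ * (2 * k)) =
              (p : ℝ) ^ (2 * τ * (2 * k)) * p / (p : ℝ) ^ ε := by
            rw [← Real.rpow_add_one hpp.ne', ← Real.rpow_sub hpp]
            congr 1
            ring
          rw [h4, hCk]
          ring
      _ ≤ Ck * (p : ℝ) ^ (1 - ε + η / 4) := by
          refine mul_le_mul_of_nonneg_left ?_ (by positivity)
          apply Real.rpow_le_rpow_of_exponent_le hp1
          nlinarith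
  refine ⟨E0 ∪ Dv.biUnion Ed, ?_, ?_⟩
  · have h0 : ((E0 ∪ Dv.biUnion Ed).card : ℝ) ≤ E0.card + (Dv.biUnion Ed).card := by
      exact_mod_cast card_union_le _ _
    have h1 : ((Dv.biUnion Ed).card : ℝ) ≤ ∑ d ∈ Dv, ((Ed d).card : ℝ) := by
      exact_mod_cast card_biUnion_le
    have h2 : ∑ d ∈ Dv, ((Ed d).card : ℝ) ≤ ∑ d ∈ Dv, Ck * (p : ℝ) ^ (1 - ε + η / 4) := sum_le_sum hEdc
    have h3 : (Dv.card : ℝ) ≤ C0 * (p : ℝ) ^ (η / 4) := by
      have h4 : (Dv.card : ℝ) ≤ (p - 1).divisors.card := by exact_mod_cast card_filter_le _ _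
      have h5 := hdiv (p - 1) (by have := hp.two_le; omega)
      refine h4.trans (h5.trans (mul_le_mul_of_nonneg_left ?_ hC0.le))
      apply Real.rpow_le_rpow (Nat.cast_nonneg _) _ (by positivity)
      exact_mod_cast Nat.sub_le p 1
    rw [sum_const, nsmul_eq_mul] at h2
    have h4 : (Dv.card : ℝ) * (Ck * (p : ℝ) ^ (1 - ε + η / 4)) ≤ C0 * Ck * (p : ℝ) ^ (1 - ε + η / 2) := by
      calc (Dv.card : ℝ) * (Ck * (p : ℝ) ^ (1 - ε + η / 4))
          ≤ (C0 * (p : ℝ) ^ (η / 4)) * (Ck * (p : ℝ) ^ (1 - ε + η / 4)) :=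
            mul_le_mul_of_nonneg_right h3 (by positivity)
        _ = C0 * Ck * (p : ℝ) ^ (1 - ε + η / 2) := by
            have : (p : ℝ) ^ (1 - ε + η / 2) = (p : ℝ) ^ (η / 4) * (p : ℝ) ^ (1 - ε + η / 4) := by
              rw [← Real.rpow_add hpp]
              congr 1
              ring
            rw [this]
            ring
    calc ((E0 ∪ Dv.biUnion Ed).card : ℝ) ≤ Ck * (4 * 4 ^ k) * (p : ℝ) ^ (1 - ε + η / 2) +
          C0 * Ck * (p : ℝ) ^ (1 - ε + η / 2) := by linarith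
      _ = C * (p : ℝ) ^ (1 - ε + η / 2) := by rw [hC]; ring
      _ ≤ (p : ℝ) ^ (η / 2) * (p : ℝ) ^ (1 - ε + η / 2) := mul_le_mul_of_nonneg_right hpC (by positivity)
      _ = (p : ℝ) ^ (1 - ε + η) := by
          rw [← Real.rpow_add hpp]
          congr 1
          ring
  · intro χ hχ A F hF hcase
    rw [mem_union, not_or] at hχ
    set c : ℝ := (p : ℝ) ^ (-(2 * τ)) with hc
    have hc0 : 0 < c := by positivity
    have hcK : ∀ y : ℝ, y / K = c * y := by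
      intro y
      rw [hc, Real.rpow_neg hpp.le, ← hK]
      field_simp
    have hS : ∀ x, ‖S N0 χ x‖ ≤ c * N0 := by
      intro x
      by_contra hcon
      push Not at hcon
      apply hχ.1
      rw [hE0, mem_filter]
      exact ⟨mem_univ _, x, by rw [hcK]; exact hcon⟩
    have hT : ∀ d ∈ (p - 1).divisors, (p : ℝ) ^ ε ≤ (Pd p d).card → ∀ x : ZMod p, x ≠ 0 →
        ‖T (Pi p d) χ x‖ ≤ c * (Pd p d).card := by
      intro d hd hd2 x hx
      by_contra hcon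
      push Not at hcon
      apply hχ.2
      rw [mem_biUnion]
      refine ⟨d, mem_filter.2 ⟨hd, hd2⟩, ?_⟩
      rw [hEd, mem_filter]
      exact ⟨mem_univ _, x, hx, by rw [hcK]; exact hcon⟩
    have hNε : (N0 : ℝ) ≤ 2 * c * (p : ℝ) ^ ε := by
      refine hN0u.trans (le_of_eq ?_)
      rw [hc, mul_assoc, ← Real.rpow_add hpp]
      congr 2
      ring
    have hmain := total hc0.le χ A F hF (fun Q hQ => by
      rcases hcase with h1 | ⟨h1, h2⟩
      · exact Or.inl fun a => prog_sum hN01 hc0.le hS (h1 Q hQ) hNε a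
      · rcases h1 Q hQ with h3 | h3
        · exact Or.inl fun a => prog_sum hN01 hc0.le hS h3 hNε a
        · refine Or.inr ⟨?_, coset_sum h3 hT⟩
          have h4 : c * (p : ℝ) ^ (2 * τ) = 1 := by
            rw [hc, ← Real.rpow_add hpp]
            simp
          rw [← h4]
          exact mul_le_mul_of_nonneg_left h2 hc0.le)
    refine hmain.trans (mul_le_mul_of_nonneg_right ?_ (by positivity))
    have h5 : c = (p : ℝ) ^ (-τ) * (p : ℝ) ^ (-τ) := by
      rw [hc, ← Real.rpow_add hpp]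
      congr 1
      ring
    have h6 : (p : ℝ) ^ τ * (p : ℝ) ^ (-τ) = 1 := by
      rw [← Real.rpow_add hpp]
      simp
    have h7 : 0 < (p : ℝ) ^ (-τ) := by positivity
    rw [h5]
    nlinarith

end Pool.Agent.K1H93.PZ
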