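import Pool.Agent.K1H93.PX.Chr

/-!
# Moments of single sums over the characters and the shifts
-/

set_option autoImplicit false

namespace Pool.Agent.K1H93.PZ

open Finset
open Pool.Agent.K1H93.PX (pr orth roots_le)

variable {p : ℕ} [hp : Fact p.Prime]

/-- the sum over `x + P` -/
noncomputable def T (P : Finset (ZMod p)) (χ : DirichletCharacter ℂ p) (x : ZMod p) : ℂ := ∑ u ∈ P, χ (x + u)

/-- the tuples -/
def tup (P : Finset (ZMod p)) (k : ℕ) : Finset (Fin k → ZMod p) := Fintype.piFinset fun _ : Fin k => P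

theorem pr_ofFn (x : ZMod p) {k : ℕ} (U : Fin k → ZMod p) : pr x (List.ofFn U) = ∏ i, (x + U i) := by
  unfold pr
  rw [List.map_ofFn, List.prod_ofFn]
  rfl

theorem pow_T (P : Finset (ZMod p)) (χ : DirichletCharacter ℂ p) (x : ZMod p) (k : ℕ) :
    (T P χ x) ^ k = ∑ U ∈ tup P k, χ (pr x (List.ofFn U)) := by
  have h : (T P χ x) ^ k = ∏ _i : Fin k, ∑ u ∈ P, χ (x + u) := by
    rw [prod_const, card_univ, Fintype.card_fin]
    rfl
  rw [h, prod_univ_sum]
  refine sum_congr rfl fun U _ => ?_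
  rw [pr_ofFn, map_prod]

theorem card_deg (P : Finset (ZMod p)) (k : ℕ) :
    (((tup P k) ×ˢ (tup P k)).filter fun q => ∀ l ∈ List.ofFn q.2, l ∈ List.ofFn q.1).card ≤ k ^ k * P.card ^ k := by
  classical
  have h : ((tup P k) ×ˢ (tup P k)).filter (fun q => ∀ l ∈ List.ofFn q.2, l ∈ List.ofFn q.1) ⊆
      (tup P k).biUnion fun U => ({U} : Finset (Fin k → ZMod p)) ×ˢ (Fintype.piFinset fun _ : Fin k => univ.image U) := by
    intro q hq
    rw [mem_filter, mem_product] at hq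
    rw [mem_biUnion]
    refine ⟨q.1, hq.1.1, mem_product.2 ⟨mem_singleton_self _, ?_⟩⟩
    rw [Fintype.mem_piFinset]
    intro i
    have h1 := hq.2 (q.2 i) (by rw [List.mem_ofFn]; exact ⟨i, rfl⟩)
    rw [List.mem_ofFn] at h1
    obtain ⟨j, hj⟩ := h1
    exact mem_image.2 ⟨j, mem_univ _, hj⟩
  refine (card_le_card h).trans (card_biUnion_le.trans ?_)
  have h2 : ∀ U ∈ tup P k, (({U} : Finset (Fin k → ZMod p)) ×ˢ
      (Fintype.piFinset fun _ : Fin k => univ.image U)).card ≤ k ^ k := by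
    intro U _
    rw [card_product, card_singleton, one_mul, Fintype.card_piFinset, prod_const, card_univ, Fintype.card_fin]
    apply Nat.pow_le_pow_left
    refine card_image_le.trans ?_
    rw [card_univ, Fintype.card_fin]
  refine (sum_le_sum h2).trans ?_
  rw [sum_const, smul_eq_mul, mul_comm]
  apply Nat.mul_le_mul le_rfl
  unfold tup
  rw [Fintype.card_piFinset, prod_const, card_univ, Fintype.card_fin]

/-- **The moments.** -/
theorem moment (P : Finset (ZMod p)) (k : ℕ) :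
    ∑ χ : DirichletCharacter ℂ p, ∑ x, ‖T P χ x‖ ^ (2 * k) ≤
      p * (p * ((k : ℝ) ^ k * (P.card : ℝ) ^ k) + k * (P.card : ℝ) ^ (2 * k)) := by
  classical
  have h : ((∑ χ : DirichletCharacter ℂ p, ∑ x, ‖T P χ x‖ ^ (2 * k) : ℝ) : ℂ) =
      ((((p - 1 : ℕ) : ℝ) * ∑ q ∈ (tup P k) ×ˢ (tup P k), ((univ.filter fun x : ZMod p =>
        pr x (List.ofFn q.1) = pr x (List.ofFn q.2) ∧ pr x (List.ofFn q.2) ≠ 0).card : ℝ) : ℝ) : ℂ) := by
    push_cast
    calc ∑ χ : DirichletCharacter ℂ p, ∑ x, ((‖T P χ x‖ : ℂ)) ^ (2 * k)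
        = ∑ χ : DirichletCharacter ℂ p, ∑ x, ∑ q ∈ (tup P k) ×ˢ (tup P k),
            χ (pr x (List.ofFn q.1)) * star (χ (pr x (List.ofFn q.2))) := by
          refine sum_congr rfl fun χ _ => sum_congr rfl fun x _ => ?_
          rw [pow_mul, ← Complex.mul_conj', mul_pow, ← map_pow, pow_T, map_sum, sum_mul_sum, sum_product]
          rfl
      _ = ∑ q ∈ (tup P k) ×ˢ (tup P k), ∑ x, ∑ χ : DirichletCharacter ℂ p,
            χ (pr x (List.ofFn q.1)) * star (χ (pr x (List.ofFn q.2))) := by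
          rw [sum_comm]
          rw [sum_congr rfl fun x _ => sum_comm]
          rw [sum_comm]
      _ = ∑ q ∈ (tup P k) ×ˢ (tup P k), ((p - 1 : ℕ) : ℂ) * ((univ.filter fun x : ZMod p =>
        pr x (List.ofFn q.1) = pr x (List.ofFn q.2) ∧ pr x (List.ofFn q.2) ≠ 0).card : ℂ) := by
          refine sum_congr rfl fun w _ => ?_
          simp only [orth]
          rw [← sum_filter, sum_const, nsmul_eq_mul, mul_comm]
      _ = _ := by rw [mul_sum]
  have h' : ∑ χ : DirichletCharacter ℂ p, ∑ x, ‖T P χ x‖ ^ (2 * k) =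
      ((p - 1 : ℕ) : ℝ) * ∑ q ∈ (tup P k) ×ˢ (tup P k), ((univ.filter fun x : ZMod p =>
        pr x (List.ofFn q.1) = pr x (List.ofFn q.2) ∧ pr x (List.ofFn q.2) ≠ 0).card : ℝ) := by
    exact_mod_cast h
  rw [h']
  have hp1 : ((p - 1 : ℕ) : ℝ) ≤ p := by exact_mod_cast Nat.sub_le p 1
  refine mul_le_mul hp1 ?_ (sum_nonneg fun w _ => Nat.cast_nonneg _) (Nat.cast_nonneg _)
  set B : Finset ((Fin k → ZMod p) × (Fin k → ZMod p)) :=
    ((tup P k) ×ˢ (tup P k)).filter fun q => ∀ l ∈ List.ofFn q.2, l ∈ List.ofFn q.1 with hB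
  have h1 : ∀ q ∈ (tup P k) ×ˢ (tup P k), ((univ.filter fun x : ZMod p =>
        pr x (List.ofFn q.1) = pr x (List.ofFn q.2) ∧ pr x (List.ofFn q.2) ≠ 0).card : ℝ) ≤
      (if q ∈ B then (p : ℝ) else 0) + k := by
    intro q hq
    by_cases hw : q ∈ B
    · rw [if_pos hw]
      have : (univ.filter fun x : ZMod p =>
        pr x (List.ofFn q.1) = pr x (List.ofFn q.2) ∧ pr x (List.ofFn q.2) ≠ 0).card ≤ p := by
        refine (card_le_univ _).trans ?_
        rw [ZMod.card]
      have h2 : ((univ.filter fun x : ZMod p =>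
        pr x (List.ofFn q.1) = pr x (List.ofFn q.2) ∧ pr x (List.ofFn q.2) ≠ 0).card : ℝ) ≤ p := by
        exact_mod_cast this
      have h3 : (0 : ℝ) ≤ k := Nat.cast_nonneg _
      linarith
    · rw [if_neg hw, zero_add]
      have hw' : ¬ ∀ l ∈ List.ofFn q.2, l ∈ List.ofFn q.1 := fun h => hw (mem_filter.2 ⟨hq, h⟩)
      have h4 := roots_le (List.ofFn q.1) (List.ofFn q.2) k (by simp) (by simp) hw'
      have h5 : (univ.filter fun x : ZMod p =>
        pr x (List.ofFn q.1) = pr x (List.ofFn q.2) ∧ pr x (List.ofFn q.2) ≠ 0).card ≤ k := by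
        refine (card_le_card fun x hx => ?_).trans h4
        rw [mem_filter] at hx ⊢
        exact ⟨hx.1, hx.2.1⟩
      exact_mod_cast h5
  refine (sum_le_sum h1).trans ?_
  have hcard : (((tup P k) ×ˢ (tup P k)).card : ℝ) = (P.card : ℝ) ^ (2 * k) := by
    rw [card_product]
    unfold tup
    rw [Fintype.card_piFinset, prod_const, card_univ, Fintype.card_fin]
    push_cast
    rw [two_mul, pow_add]
  rw [sum_add_distrib, sum_const, nsmul_eq_mul, hcard]
  have h6 : ∑ q ∈ (tup P k) ×ˢ (tup P k), (if q ∈ B then (p : ℝ) else 0) ≤ p * ((k : ℝ) ^ k * (P.card : ℝ) ^ k) := by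
    rw [← sum_filter, sum_const, nsmul_eq_mul, mul_comm]
    refine mul_le_mul_of_nonneg_left ?_ (Nat.cast_nonneg _)
    have h7 : (((tup P k) ×ˢ (tup P k)).filter fun q => q ∈ B).card ≤ k ^ k * P.card ^ k := by
      refine (card_le_card ?_).trans (card_deg P k)
      intro q hq
      exact (mem_filter.1 hq).2
    exact_mod_cast h7
  linarith [h6]

end Pool.Agent.K1H93.PZ
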